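import Pool.Agent.Helper13_Eng2.Stmts

/-!
# Squad ENG part 2, module HBAS: orthonormal bases of hermitian spaces over finite fields
-/

set_option autoImplicit false

namespace Pool.Agent.Eng.H48

section

variable {K V : Type} [Field K] [StarRing K] [AddCommGroup V] [Module K V] {h : V → V → K}

/-- the linear form `h u` -/
def hl (hh : IsHerm h) (u : V) : V →ₗ[K] K where
  toFun := h u
  map_add' := hh.add_right u
  map_smul' := by
    intro c v
    simp only [RingHom.id_apply, smul_eq_mul]
    exact hh.smul_right c u v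

theorem hl_apply (hh : IsHerm h) (u v : V) : hl hh u v = h u v := rfl

theorem h_add_left (hh : IsHerm h) (u v w : V) : h (u + v) w = h u w + h v w := by
  rw [hh.symm w (u + v), hh.add_right, star_add, ← hh.symm w u, ← hh.symm w v]

theorem h_smul_left (hh : IsHerm h) (c : K) (u w : V) : h (c • u) w = star c * h u w := by
  rw [hh.symm w (c • u), hh.smul_right, star_mul', ← hh.symm w u]

/-- a nonzero value gives a nonisotropic vector in the span -/
theorem exists_nonisotropic (hh : IsHerm h) (hs : ∃ x : K, star x ≠ x) (W : Submodule K V)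
    (w u : V) (hw : w ∈ W) (hu : u ∈ W) (hwu : h w u ≠ 0) : ∃ x ∈ W, h x x ≠ 0 := by
  by_contra hcon
  push Not at hcon
  obtain ⟨c, hc⟩ := hs
  have key : ∀ c : K, c * h w u + star (c * h w u) = 0 := by
    intro c
    have hm : w + c • u ∈ W := W.add_mem hw (W.smul_mem c hu)
    have h1 := hcon _ hm
    rw [h_add_left hh, hh.add_right, hh.add_right, hcon w hw, hcon _ (W.smul_mem c hu),
      hh.symm w (c • u), hh.smul_right] at h1
    simpa using h1
  have h1 := key 1
  have h2 := key c
  rw [one_mul] at h1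
  rw [star_mul'] at h2
  have h3 : star (h w u) = -h w u := by linear_combination h1
  rw [h3] at h2
  have h4 : (c - star c) * h w u = 0 := by linear_combination h2
  rcases mul_eq_zero.1 h4 with h5 | h5
  · exact hc (sub_eq_zero.1 h5).symm
  · exact hwu h5

/-- the coefficients with respect to an orthonormal family -/
def ph (hh : IsHerm h) {k : ℕ} (v : Fin k → V) : V →ₗ[K] (Fin k → K) :=
  LinearMap.pi fun i => hl hh (v i)

theorem ph_apply (hh : IsHerm h) {k : ℕ} (v : Fin k → V) (w : V) (i : Fin k) :
    ph hh v w i = h (v i) w := rfl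

theorem ph_sum (hh : IsHerm h) {k : ℕ} (v : Fin k → V)
    (hv : ∀ i j, h (v i) (v j) = if i = j then 1 else 0) (a : Fin k → K) :
    ph hh v (∑ i, a i • v i) = a := by
  ext j
  rw [ph_apply]
  have : h (v j) (∑ i, a i • v i) = hl hh (v j) (∑ i, a i • v i) := rfl
  rw [this, map_sum]
  simp only [map_smul, smul_eq_mul, hl_apply, hv]
  simp

theorem exists_family [FiniteDimensional K V] (hh : IsHerm h) (hs : ∃ x : K, star x ≠ x)
    (hn : ∀ c : K, star c = c → ∃ x : K, star x * x = c) (n : ℕ)
    (hV : Module.finrank K V = n) (k : ℕ) : k ≤ n →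
    ∃ v : Fin k → V, ∀ i j, h (v i) (v j) = if i = j then 1 else 0 := by
  induction k with
  | zero => intro _; exact ⟨fun i => i.elim0, fun i => i.elim0⟩
  | succ k ih =>
    intro hk
    obtain ⟨v, hv⟩ := ih (by omega)
    have hproj : ∀ w : V, w - ∑ i, ph hh v w i • v i ∈ LinearMap.ker (ph hh v) := by
      intro w
      rw [LinearMap.mem_ker, map_sub, ph_sum hh v hv, sub_self]
    have hnz : ∃ w ∈ LinearMap.ker (ph hh v), w ≠ 0 := by
      by_contra hcon
      push Not at hcon
      have hinj : Function.Injective (ph hh v) := by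
        rw [← LinearMap.ker_eq_bot]
        exact (Submodule.eq_bot_iff _).2 hcon
      have := LinearMap.finrank_le_finrank_of_injective hinj
      rw [hV, Module.finrank_fin_fun] at this
      omega
    obtain ⟨w, hw, hw0⟩ := hnz
    have hw1 : ∀ i, h (v i) w = 0 := fun i => congrFun (LinearMap.mem_ker.1 hw) i
    have hw2 : ∀ i, h w (v i) = 0 := by
      intro i
      rw [hh.symm (v i) w, hw1, star_zero]
    obtain ⟨u, hu⟩ : ∃ u, h w u ≠ 0 := by
      by_contra hcon
      push Not at hcon
      exact hw0 (hh.nondeg w hcon)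
    have hwu : h w (u - ∑ i, ph hh v u i • v i) ≠ 0 := by
      have : h w (u - ∑ i, ph hh v u i • v i) = hl hh w (u - ∑ i, ph hh v u i • v i) := rfl
      rw [this, map_sub, map_sum]
      simp only [map_smul, smul_eq_mul, hl_apply, hw2, mul_zero, Finset.sum_const_zero, sub_zero]
      exact hu
    obtain ⟨x, hx, hxx⟩ := exists_nonisotropic hh hs (LinearMap.ker (ph hh v)) w _ hw (hproj u) hwu
    have hfix : star (h x x)⁻¹ = (h x x)⁻¹ := by
      rw [star_inv₀, ← hh.symm x x]
    obtain ⟨y, hy⟩ := hn _ hfix
    have hx1 : ∀ i, h (v i) x = 0 := fun i => congrFun (LinearMap.mem_ker.1 hx) i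
    refine ⟨Fin.cons (y • x) v, ?_⟩
    intro i j
    refine Fin.cases ?_ (fun i => ?_) i
    · refine Fin.cases ?_ (fun j => ?_) j
      · rw [Fin.cons_zero, if_pos rfl, h_smul_left hh, hh.smul_right, ← mul_assoc, hy,
          inv_mul_cancel₀ hxx]
      · rw [Fin.cons_zero, Fin.cons_succ, if_neg (Fin.succ_ne_zero j).symm, h_smul_left hh,
          hh.symm (v j) x, hx1, star_zero, mul_zero]
    · refine Fin.cases ?_ (fun j => ?_) j
      · rw [Fin.cons_zero, Fin.cons_succ, if_neg (Fin.succ_ne_zero i), hh.smul_right, hx1,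
          mul_zero]
      · rw [Fin.cons_succ, Fin.cons_succ, hv]
        simp only [Fin.succ_inj]

end

theorem hbas (hq : HqStmt) (hnm : HnmStmt) : HbasStmt := by
  intro K V _ _ _ _ _ _ h n hs hh hV
  obtain ⟨q, _, _, _, _, hQ, _, _⟩ := hq K hs
  obtain ⟨v, hv⟩ := exists_family hh hs (hnm K q hQ) n hV n le_rfl
  have hsur : Function.Surjective (ph hh v) := fun a => ⟨_, ph_sum hh v hv a⟩
  have hdim : Module.finrank K V = Module.finrank K (Fin n → K) := by
    rw [hV, Module.finrank_fin_fun]
  have hinj : Function.Injective (ph hh v) :=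
    (LinearMap.injective_iff_surjective_of_finrank_eq_finrank hdim).2 hsur
  have hbij : Function.Bijective (ph hh v) := ⟨hinj, hsur⟩
  refine ⟨LinearEquiv.ofBijective (ph hh v) hbij, fun u w => ?_⟩
  have hw : ∑ i, ph hh v w i • v i = w := hinj (ph_sum hh v hv _)
  have h1 : h u w = ∑ i, ph hh v w i * h u (v i) := by
    have h2 : hl hh u (∑ i, ph hh v w i • v i) = ∑ i, ph hh v w i * h u (v i) := by
      rw [map_sum]
      simp only [map_smul, smul_eq_mul, hl_apply]
    rw [hw] at h2
    exact h2
  rw [h1]
  refine Finset.sum_congr rfl fun i _ => ?_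
  change ph hh v w i * h u (v i) = star (ph hh v u i) * ph hh v w i
  rw [ph_apply hh v u, ← hh.symm, mul_comm]

end Pool.Agent.Eng.H48
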